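import Pool.Agent.T9h34.Q.Spec2

/-!
# The choice of the parameters
-/

set_option autoImplicit false

namespace Pool.Agent.T9h46.QC

open Finset
open Pool.Agent.T9h34.Q

lemma eventually_log (ε : ℝ) (hε : 0 < ε) : ∃ n₀ : ℕ, ∀ n : ℕ, n₀ ≤ n →
    1 ≤ n ∧ 1 ≤ Real.log n ∧ 1000 ≤ ε * Real.log n ∧
      1700 * Real.log n ^ 10 ≤ (n : ℝ) ^ (ε / 12) := by
  have h1 := (isLittleO_log_rpow_rpow_atTop (10 : ℝ) (show (0 : ℝ) < ε / 12 by positivity)).bound
    (show (0 : ℝ) < 1 / 1700 by norm_num)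
  have h2 := Real.tendsto_log_atTop.eventually_ge_atTop (max 1 (1000 / ε))
  have h3 := (h1.and h2).and (Filter.eventually_ge_atTop (1 : ℝ))
  have h4 := tendsto_natCast_atTop_atTop (R := ℝ) |>.eventually h3
  obtain ⟨n₀, hn₀⟩ := Filter.eventually_atTop.1 h4
  refine ⟨n₀, fun n hn => ?_⟩
  obtain ⟨⟨h5, h6⟩, h7⟩ := hn₀ n hn
  have h8 : (1 : ℝ) ≤ Real.log n := (le_max_left _ _).trans h6
  refine ⟨by exact_mod_cast h7, h8, ?_, ?_⟩
  · have h9 := (le_max_right _ _).trans h6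
    rw [div_le_iff₀ hε] at h9
    linarith
  · rw [Real.norm_of_nonneg (by positivity), Real.norm_of_nonneg (by positivity)] at h5
    have h9 : Real.log n ^ (10 : ℝ) = Real.log n ^ 10 := by
      rw [← Real.rpow_natCast]; norm_num
    rw [h9] at h5
    linarith

lemma wgt_eq (x : ℝ) (j : ℕ) : wgt x j = (2 ^ (j + 2) * x) ^ j := by
  unfold wgt
  rw [mul_pow, ← pow_mul]
  congr 2
  ring

theorem stParams : StParams := by
  intro ε hε hε2
  obtain ⟨n₀, hn₀⟩ := eventually_log ε hε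
  refine ⟨n₀, fun n k f s D hn hD hkD hs hf hfs => ?_⟩
  obtain ⟨h1, hL1, hL2, hL8⟩ := hn₀ n hn
  have hN1 : (1 : ℝ) ≤ n := by exact_mod_cast h1
  set N : ℝ := (n : ℝ) with hN
  have hN0 : 0 < N := by linarith
  set L : ℝ := Real.log N with hL
  have hL0 : 0 < L := by linarith
  have hD1 : (1 : ℝ) ≤ D := by exact_mod_cast hD
  have hk : (k : ℝ) ≤ N ^ (1 / 2 - ε) := by
    have h2 : (k : ℝ) * 1 ≤ k * D := by gcongr
    linarith
  have hkn : k ≤ n := by
    have h2 : (k : ℝ) ≤ N := hk.trans ((Real.rpow_le_rpow_of_exponent_le hN1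
      (show 1 / 2 - ε ≤ 1 by linarith)).trans_eq (Real.rpow_one _))
    rw [hN] at h2
    exact_mod_cast h2
  refine ⟨by omega, hkn, ?_⟩
  have hs0 : (0 : ℝ) < s := by
    have : (n : ℝ) ≤ s := by exact_mod_cast hs
    linarith
  have hls : L ≤ Real.log s := Real.log_le_log hN0 (by rw [hN]; exact_mod_cast hs)
  have hls0 : 0 < Real.log s := by linarith
  obtain ⟨c, hc⟩ : ∃ c : ℕ, c = ⌈3 * Real.log s / (ε * L)⌉₊ + 2 := ⟨_, rfl⟩
  obtain ⟨m, hm⟩ : ∃ m : ℕ, m = ⌊k * N ^ (2 * ε / 3)⌋₊ := ⟨_, rfl⟩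
  obtain ⟨d, hd⟩ : ∃ d : ℕ, d = f * c := ⟨_, rfl⟩
  obtain ⟨q, hq⟩ : ∃ q : ℕ, q = (d ^ 2 + 1) * (d + 1) := ⟨_, rfl⟩
  obtain ⟨B, hB⟩ : ∃ B : ℕ, B = q * (D + Nat.log 2 n + 2) := ⟨_, rfl⟩
  have hu0 : 0 ≤ 3 * Real.log s / (ε * L) := by positivity
  have hc1 : (c : ℝ) ≤ 3 * Real.log s / (ε * L) + 3 := by
    rw [hc]
    have := (Nat.ceil_lt_add_one hu0).le
    push_cast
    linarith
  have hc2 : 3 * Real.log s / (ε * L) + 2 ≤ c := by
    rw [hc]
    have := Nat.le_ceil (3 * Real.log s / (ε * L))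
    push_cast
    linarith
  have hc3 : 2 ≤ c := by omega
  have hcd : c ≤ d := by rw [hd]; exact Nat.le_mul_of_pos_left _ (by omega)
  have hdL : (d : ℝ) ≤ 9 / 128 * ε * L := by
    rw [hd]
    push_cast
    have h2 : (f : ℝ) * (3 * Real.log s / (ε * L)) ≤ 3 / 64 * (ε * L) := by
      have h3 : (f : ℝ) * (3 * Real.log s / (ε * L)) = 3 * (f * Real.log s) / (ε * L) := by ring
      rw [h3, div_le_iff₀ (by positivity)]
      have h4 : 3 / 64 * (ε * L) * (ε * L) = 3 * (ε ^ 2 / 64 * L ^ 2) := by ring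
      rw [h4]
      linarith
    have h3 : (f : ℝ) ≤ ε ^ 2 / 64 * L := by
      have h4 : (f : ℝ) * L ≤ ε ^ 2 / 64 * L * L := by
        calc (f : ℝ) * L ≤ f * Real.log s := by gcongr
          _ ≤ _ := by rw [mul_assoc, ← sq]; exact hfs
      exact le_of_mul_le_mul_right h4 hL0
    have h4 : ε ^ 2 / 64 * L ≤ ε / 128 * L := by
      have h5 : ε ^ 2 / 64 ≤ ε / 128 := by nlinarith
      gcongr
    calc (f : ℝ) * c ≤ f * (3 * Real.log s / (ε * L) + 3) := by gcongr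
      _ = f * (3 * Real.log s / (ε * L)) + 3 * f := by ring
      _ ≤ 3 / 64 * (ε * L) + 3 * (ε / 128 * L) := by linarith
      _ = 9 / 128 * ε * L := by ring
  have hdL' : (d : ℝ) ≤ L := by
    have : 9 / 128 * ε * L ≤ 1 * L := by gcongr; linarith
    linarith
  have hpow : (2 : ℝ) ^ (d + 2) ≤ N ^ (ε / 12) := by
    have h2 : (0 : ℝ) < 2 ^ (d + 2) := by positivity
    rw [← Real.log_le_log_iff h2 (by positivity), Real.log_pow, Real.log_rpow hN0, ← hL]
    push_cast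
    have h3 := Real.log_two_lt_d9
    have h4 : (0 : ℝ) ≤ (d : ℝ) + 2 := by positivity
    calc ((d : ℝ) + 2) * Real.log 2 ≤ (9 / 128 * ε * L + 2) * 0.6931471808 := by
          have h5 : 0 < Real.log 2 := Real.log_pos (by norm_num)
          gcongr
      _ ≤ ε / 12 * L := by nlinarith
  -- the ratio
  obtain ⟨x, hx⟩ : ∃ x : ℝ, x = (k : ℝ) / (m + 1) := ⟨_, rfl⟩
  have hx0 : 0 ≤ x := by rw [hx]; positivity
  have hx1 : x ≤ N ^ (-(2 * ε / 3)) := by
    rw [hx, div_le_iff₀ (by positivity), Real.rpow_neg hN0.le, inv_mul_eq_div,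
      le_div_iff₀ (by positivity)]
    rw [hm]
    exact (Nat.lt_floor_add_one _).le
  obtain ⟨y, hy⟩ : ∃ y : ℝ, y = N ^ (-(7 * ε / 12)) := ⟨_, rfl⟩
  have hy0 : 0 < y := by rw [hy]; positivity
  have hy1 : y ≤ 1 := by
    rw [hy]
    exact Real.rpow_le_one_of_one_le_of_nonpos hN1 (by linarith)
  have hw : ∀ j : ℕ, j ≤ d → wgt x j ≤ y ^ j := by
    intro j hj
    rw [wgt_eq]
    refine pow_le_pow_left₀ (by positivity) ?_ j
    have h2 : (2 : ℝ) ^ (j + 2) ≤ 2 ^ (d + 2) := pow_le_pow_right₀ (by norm_num) (by omega)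
    calc (2 : ℝ) ^ (j + 2) * x ≤ N ^ (ε / 12) * N ^ (-(2 * ε / 3)) :=
          mul_le_mul (h2.trans hpow) hx1 hx0 (by positivity)
      _ = y := by
          rw [← Real.rpow_add hN0, hy]
          congr 1
          ring
  have hsum1 : ∑ j ∈ Icc (c + 1) d, wgt x j ≤ d * y ^ (c + 1) := by
    calc ∑ j ∈ Icc (c + 1) d, wgt x j ≤ ∑ j ∈ Icc (c + 1) d, y ^ (c + 1) := by
          refine sum_le_sum fun j hj => ?_
          rw [mem_Icc] at hj
          exact (hw j hj.2).trans (pow_le_pow_of_le_one hy0.le hy1 hj.1)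
      _ = ((Icc (c + 1) d).card : ℝ) * y ^ (c + 1) := by rw [sum_const, nsmul_eq_mul]
      _ ≤ d * y ^ (c + 1) := by
          have : (Icc (c + 1) d).card ≤ d := by rw [Nat.card_Icc]; omega
          have h3 : ((Icc (c + 1) d).card : ℝ) ≤ d := by exact_mod_cast this
          gcongr
  have hsum2 : ∑ j ∈ Icc 1 c, wgt x j ≤ d * y := by
    calc ∑ j ∈ Icc 1 c, wgt x j ≤ ∑ j ∈ Icc 1 c, y := by
          refine sum_le_sum fun j hj => ?_
          rw [mem_Icc] at hj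
          refine (hw j (hj.2.trans hcd)).trans ?_
          calc y ^ j ≤ y ^ 1 := pow_le_pow_of_le_one hy0.le hy1 hj.1
            _ = y := pow_one y
      _ = ((Icc 1 c).card : ℝ) * y := by rw [sum_const, nsmul_eq_mul]
      _ ≤ d * y := by
          have : (Icc 1 c).card ≤ d := by rw [Nat.card_Icc]; omega
          have h3 : ((Icc 1 c).card : ℝ) ≤ d := by exact_mod_cast this
          gcongr
  have hsy : (s : ℝ) * y ^ c ≤ 1 := by
    have h2 : 0 < (s : ℝ) * y ^ c := by positivity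
    rw [← Real.log_nonpos_iff h2.le, Real.log_mul hs0.ne' (by positivity), Real.log_pow, hy,
      Real.log_rpow hN0, ← hL]
    have h3 : 3 * Real.log s ≤ c * (ε * L) := by
      rw [← div_le_iff₀ (by positivity)]
      linarith
    nlinarith
  have hsy1 : (((s + 1 : ℕ) : ℝ)) * y ^ (c + 1) ≤ 2 * y := by
    have h2 : (((s + 1 : ℕ) : ℝ)) ≤ 2 * s := by
      have h3 : 1 ≤ s := by omega
      exact_mod_cast (by omega : s + 1 ≤ 2 * s)
    calc (((s + 1 : ℕ) : ℝ)) * y ^ (c + 1) ≤ 2 * s * y ^ (c + 1) := by gcongr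
      _ = 2 * (s * y ^ c) * y := by ring
      _ ≤ 2 * 1 * y := by gcongr
      _ = 2 * y := by ring
  have hqL : (q : ℝ) ≤ 4 * L ^ 3 := by
    rw [hq]
    push_cast
    have h2 : (d : ℝ) ^ 2 + 1 ≤ 2 * L ^ 2 := by
      have : (d : ℝ) ^ 2 ≤ L ^ 2 := by gcongr
      nlinarith
    have h3 : (d : ℝ) + 1 ≤ 2 * L := by linarith
    calc ((d : ℝ) ^ 2 + 1) * (d + 1) ≤ (2 * L ^ 2) * (2 * L) := by gcongr
      _ = 4 * L ^ 3 := by ring
  have hL48 : L ^ 4 ≤ L ^ 10 := pow_le_pow_right₀ hL1 (by norm_num)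
  have hL8' : (0 : ℝ) < L ^ 10 := by positivity
  have herr : errQ (s + 1) q c d x ≤ 12 * L ^ 10 * y := by
    unfold errQ
    have h2 : (((s + 1 : ℕ) : ℝ)) * (q * ∑ j ∈ Icc (c + 1) d, wgt x j) ≤ q * (d * (2 * y)) := by
      calc (((s + 1 : ℕ) : ℝ)) * (q * ∑ j ∈ Icc (c + 1) d, wgt x j)
          ≤ ((s + 1 : ℕ) : ℝ) * (q * (d * y ^ (c + 1))) := by gcongr
        _ = q * (d * (((s + 1 : ℕ) : ℝ) * y ^ (c + 1))) := by ring
        _ ≤ q * (d * (2 * y)) := by gcongr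
    have h3 : (q : ℝ) * ∑ j ∈ Icc 1 c, wgt x j ≤ q * (d * y) := by gcongr
    calc _ ≤ (q : ℝ) * (d * (2 * y)) + q * (d * y) := add_le_add h2 h3
      _ = 3 * (q * d) * y := by ring
      _ ≤ 3 * (4 * L ^ 3 * L) * y := by gcongr
      _ = 12 * L ^ 4 * y := by ring
      _ ≤ 12 * L ^ 10 * y := by gcongr
  -- the environment
  have hlog2 : (Nat.log 2 n : ℝ) ≤ 2 * L := by
    have h2 : (2 : ℝ) ^ Nat.log 2 n ≤ N := by
      rw [hN]
      exact_mod_cast Nat.pow_log_le_self 2 (by omega)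
    have h3 := Real.log_le_log (by positivity) h2
    rw [Real.log_pow, ← hL] at h3
    have h4 := Real.log_two_gt_d9
    have h5 : (0 : ℝ) ≤ Nat.log 2 n := Nat.cast_nonneg _
    nlinarith
  have hBL : (B : ℝ) ≤ 20 * L ^ 4 * D := by
    rw [hB]
    push_cast
    calc (q : ℝ) * (D + Nat.log 2 n + 2) ≤ 4 * L ^ 3 * (5 * L * D) := by
          have h2 : (D : ℝ) + Nat.log 2 n + 2 ≤ 5 * L * D := by
            have h3 : (2 * L + 2) * 1 ≤ (2 * L + 2) * D := by gcongr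
            have h4 : (1 + 2) * (D : ℝ) ≤ (3 * L) * D := by
              have : (1 + 2 : ℝ) ≤ 3 * L := by linarith
              gcongr
            linarith
          gcongr
      _ = _ := by ring
  have hmL : (m : ℝ) ≤ k * N ^ (2 * ε / 3) := by
    rw [hm]
    exact Nat.floor_le (by positivity)
  have hBdm : (B : ℝ) * (d * m) ≤ 20 * L ^ 5 * N ^ (1 / 2 - ε / 3) := by
    calc (B : ℝ) * (d * m) ≤ 20 * L ^ 4 * D * (L * (k * N ^ (2 * ε / 3))) := by gcongr
      _ = 20 * L ^ 5 * ((k * D) * N ^ (2 * ε / 3)) := by ring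
      _ ≤ 20 * L ^ 5 * (N ^ (1 / 2 - ε) * N ^ (2 * ε / 3)) := by gcongr
      _ = _ := by
          rw [← Real.rpow_add hN0]
          congr 2
          ring
  have hIx : (Fintype.card (Ix B d m) : ℝ) = B * (d * m) := by
    simp only [Fintype.card_prod, Fintype.card_fin]
    push_cast
    ring
  have hRt : (Fintype.card (Rt B d m) : ℝ) = B * (d * m) + d * (m + 1) := by
    have h2 : (Fintype.card (Rt B d m) : ℝ) = Fintype.card (Ix B d m) +
        Fintype.card (Fin d × Fin (m + 1)) := by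
      rw [← Nat.cast_add]
      congr 1
      exact Fintype.card_sum
    rw [h2, hIx]
    simp only [Fintype.card_prod, Fintype.card_fin]
    push_cast
    ring
  have hB1 : (1 : ℝ) ≤ B := by
    have h2 : 1 ≤ B := by
      rw [hB, hq]
      exact Nat.one_le_iff_ne_zero.2 (Nat.mul_ne_zero (Nat.mul_ne_zero (by omega) (by omega))
        (by omega))
    exact_mod_cast h2
  have hRt2 : (Fintype.card (Rt B d m) : ℝ) ≤ 41 * L ^ 5 * N ^ (1 / 2 - ε / 3) := by
    rw [hRt]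
    have h2 : (1 : ℝ) ≤ N ^ (1 / 2 - ε / 3) := Real.one_le_rpow hN1 (by linarith)
    have h3 : (d : ℝ) * m ≤ B * (d * m) := by
      have : 1 * ((d : ℝ) * m) ≤ B * (d * m) := by gcongr
      linarith
    have h4 : (d : ℝ) ≤ L ^ 5 * N ^ (1 / 2 - ε / 3) := by
      have h5 : L ≤ L ^ 5 := by
        calc L = L ^ 1 := (pow_one L).symm
          _ ≤ L ^ 5 := pow_le_pow_right₀ hL1 (by norm_num)
      calc (d : ℝ) ≤ L ^ 5 * 1 := by linarith
        _ ≤ L ^ 5 * N ^ (1 / 2 - ε / 3) := by gcongr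
    calc (B : ℝ) * (d * m) + d * (m + 1) = B * (d * m) + d * m + d := by ring
      _ ≤ 41 * L ^ 5 * N ^ (1 / 2 - ε / 3) := by linarith
  have hy2 : N ^ (-(2 * ε / 3)) ≤ y := by
    rw [hy]
    exact Real.rpow_le_rpow_of_exponent_le hN1 (by linarith)
  have hNN : N ^ (1 / 2 - ε / 3) * N ^ (1 / 2 - ε / 3) = N * N ^ (-(2 * ε / 3)) := by
    rw [← Real.rpow_add hN0]
    nth_rw 2 [← Real.rpow_one N]
    rw [← Real.rpow_add hN0]
    congr 1
    ring
  have hthird : (Fintype.card (Ix B d m) : ℝ) * (2 * (Fintype.card (Rt B d m) : ℝ) / N) ≤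
      1640 * L ^ 10 * y := by
    calc (Fintype.card (Ix B d m) : ℝ) * (2 * (Fintype.card (Rt B d m) : ℝ) / N)
        ≤ (20 * L ^ 5 * N ^ (1 / 2 - ε / 3)) * (2 * (41 * L ^ 5 * N ^ (1 / 2 - ε / 3)) / N) := by
          rw [hIx]
          gcongr
      _ = 1640 * L ^ 10 * (N ^ (1 / 2 - ε / 3) * N ^ (1 / 2 - ε / 3)) / N := by ring
      _ = 1640 * L ^ 10 * N ^ (-(2 * ε / 3)) := by
          rw [hNN]
          field_simp
      _ ≤ 1640 * L ^ 10 * y := by gcongr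
  refine ⟨c, m, q, B, d, hc3, hd, hq.symm.le, hB.symm.le, ?_, ?_⟩
  · have h2 : ((Fintype.card (Rt B d m) : ℝ)) ^ 2 ≤ N := by
      calc ((Fintype.card (Rt B d m) : ℝ)) ^ 2 ≤ (41 * L ^ 5 * N ^ (1 / 2 - ε / 3)) ^ 2 := by
            gcongr
        _ = 1681 * L ^ 10 * (N ^ (1 / 2 - ε / 3) * N ^ (1 / 2 - ε / 3)) := by ring
        _ = 1681 * L ^ 10 * (N * N ^ (-(2 * ε / 3))) := by rw [hNN]
        _ ≤ N ^ (2 * ε / 3) * (N * N ^ (-(2 * ε / 3))) := by
            have h3 : N ^ (ε / 12) ≤ N ^ (2 * ε / 3) :=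
              Real.rpow_le_rpow_of_exponent_le hN1 (by linarith)
            have h4 : 1681 * L ^ 10 ≤ N ^ (2 * ε / 3) := by linarith
            gcongr
        _ = N := by
            rw [Real.rpow_neg hN0.le]
            field_simp
    rw [hN] at h2
    exact_mod_cast h2
  · rw [← hx]
    have h2 : N ^ (ε / 12) * y = N ^ (-(ε / 2)) := by
      rw [hy, ← Real.rpow_add hN0]
      congr 1
      ring
    calc _ ≤ 12 * L ^ 10 * y + 1640 * L ^ 10 * y := add_le_add herr hthird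
      _ = 1652 * L ^ 10 * y := by ring
      _ ≤ N ^ (ε / 12) * y := by
          have h3 : 1652 * L ^ 10 ≤ N ^ (ε / 12) := by linarith
          gcongr
      _ = _ := h2

end Pool.Agent.T9h46.QC
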