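import Pool.Agent.T9h34.Q.Spec3
import Pool.Agent.T9h46.QC.Params

/-!
# The choice of the parameters, sharp form
-/

set_option autoImplicit false

namespace Pool.Agent.T9h46.QC

open Finset
open Pool.Agent.T9h34.Q

theorem stParamsB : StParamsB := by
  intro δ hδ hδ2
  obtain ⟨n₀, hn₀⟩ := eventually_log δ hδ
  refine ⟨n₀, fun n k f s D hn hk1 hD hs hf hfs hkD => ?_⟩
  obtain ⟨h1, hL1, hL2, hL8⟩ := hn₀ n hn
  have hN1 : (1 : ℝ) ≤ n := by exact_mod_cast h1
  set N : ℝ := (n : ℝ) with hN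
  have hN0 : 0 < N := by linarith
  set L : ℝ := Real.log N with hL
  have hL0 : 0 < L := by linarith
  have hD1 : (1 : ℝ) ≤ D := by exact_mod_cast hD
  have hk1' : (1 : ℝ) ≤ k := by exact_mod_cast hk1
  obtain ⟨K, hK⟩ : ∃ K : ℝ, K = (k : ℝ) * D := ⟨_, rfl⟩
  have hkK : (k : ℝ) ≤ K := by
    rw [hK]
    calc (k : ℝ) = k * 1 := (mul_one _).symm
      _ ≤ k * D := by gcongr
  have hK1 : 1 ≤ K := hk1'.trans hkK
  rw [← hK] at hkD ⊢
  have hkn : k ≤ n := by
    have h2 : (k : ℝ) ≤ N := by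
      calc (k : ℝ) ≤ K := hkK
        _ = K * 1 := (mul_one _).symm
        _ ≤ K * K := by gcongr
        _ = K ^ 2 := (sq K).symm
        _ ≤ N ^ (1 - δ) := hkD.le
        _ ≤ N ^ (1 : ℝ) := Real.rpow_le_rpow_of_exponent_le hN1 (by linarith)
        _ = N := Real.rpow_one _
    rw [hN] at h2
    exact_mod_cast h2
  refine ⟨by omega, hkn, ?_⟩
  have hs0 : (0 : ℝ) < s := by
    have : (n : ℝ) ≤ s := by exact_mod_cast hs
    linarith
  have hls : L ≤ Real.log s := Real.log_le_log hN0 (by rw [hN]; exact_mod_cast hs)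
  have hls0 : 0 < Real.log s := by linarith
  obtain ⟨c, hc⟩ : ∃ c : ℕ, c = ⌈2 * (Real.log s + L) / (δ / 5 * L)⌉₊ + 2 := ⟨_, rfl⟩
  obtain ⟨m, hm⟩ : ∃ m : ℕ, m = ⌊k * N ^ (δ / 5)⌋₊ + 1 := ⟨_, rfl⟩
  obtain ⟨d, hd⟩ : ∃ d : ℕ, d = f * c := ⟨_, rfl⟩
  obtain ⟨q, hq⟩ : ∃ q : ℕ, q = (d ^ 2 + 1) * (d + 1) := ⟨_, rfl⟩
  obtain ⟨B, hB⟩ : ∃ B : ℕ, B = q * (D + Nat.log 2 n + 2) := ⟨_, rfl⟩
  have hu0 : 0 ≤ 2 * (Real.log s + L) / (δ / 5 * L) := by positivity
  have hc1 : (c : ℝ) ≤ 20 * Real.log s / (δ * L) + 3 := by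
    rw [hc]
    have h2 := (Nat.ceil_lt_add_one hu0).le
    have h3 : 2 * (Real.log s + L) / (δ / 5 * L) ≤ 20 * Real.log s / (δ * L) := by
      rw [div_le_div_iff₀ (by positivity) (by positivity)]
      have h4 : δ * L * L ≤ δ * L * Real.log s := by gcongr
      linear_combination 2 * h4
    push_cast
    linarith
  have hc2 : 2 * (Real.log s + L) / (δ / 5 * L) + 2 ≤ c := by
    rw [hc]
    have := Nat.le_ceil (2 * (Real.log s + L) / (δ / 5 * L))
    push_cast
    linarith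
  have hc3 : 2 ≤ c := by omega
  have hcd : c ≤ d := by rw [hd]; exact Nat.le_mul_of_pos_left _ (by omega)
  have hdL : (d : ℝ) ≤ 23 / 2000 * δ * L := by
    rw [hd]
    push_cast
    have h2 : (f : ℝ) * (20 * Real.log s / (δ * L)) ≤ 1 / 100 * (δ * L) := by
      have h3 : (f : ℝ) * (20 * Real.log s / (δ * L)) = 20 * (f * Real.log s) / (δ * L) := by ring
      rw [h3, div_le_iff₀ (by positivity)]
      have h4 : 1 / 100 * (δ * L) * (δ * L) = 20 * (δ ^ 2 / 2000 * L ^ 2) := by ring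
      rw [h4]
      linarith
    have h3 : (f : ℝ) ≤ δ ^ 2 / 2000 * L := by
      have h4 : (f : ℝ) * L ≤ δ ^ 2 / 2000 * L * L := by
        calc (f : ℝ) * L ≤ f * Real.log s := by gcongr
          _ ≤ _ := by rw [mul_assoc, ← sq]; exact hfs
      exact le_of_mul_le_mul_right h4 hL0
    have h4 : δ ^ 2 / 2000 * L ≤ δ / 2000 * L := by
      have h5 : δ ^ 2 / 2000 ≤ δ / 2000 := by nlinarith
      gcongr
    calc (f : ℝ) * c ≤ f * (20 * Real.log s / (δ * L) + 3) := by gcongr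
      _ = f * (20 * Real.log s / (δ * L)) + 3 * f := by ring
      _ ≤ 1 / 100 * (δ * L) + 3 * (δ / 2000 * L) := by linarith
      _ = 23 / 2000 * δ * L := by ring
  have hdL' : (d : ℝ) ≤ L := by
    have : 23 / 2000 * δ * L ≤ 1 * L := by gcongr; linarith
    linarith
  have hpow : (2 : ℝ) ^ (d + 2) ≤ N ^ (δ / 40) := by
    have h2 : (0 : ℝ) < 2 ^ (d + 2) := by positivity
    rw [← Real.log_le_log_iff h2 (by positivity), Real.log_pow, Real.log_rpow hN0, ← hL]
    push_cast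
    have h3 := Real.log_two_lt_d9
    have h4 : (0 : ℝ) ≤ (d : ℝ) + 2 := by positivity
    calc ((d : ℝ) + 2) * Real.log 2 ≤ (23 / 2000 * δ * L + 2) * 0.6931471808 := by
          have h5 : 0 < Real.log 2 := Real.log_pos (by norm_num)
          gcongr
      _ ≤ δ / 40 * L := by nlinarith
  -- the ratio
  obtain ⟨x, hx⟩ : ∃ x : ℝ, x = (k : ℝ) / (m + 1) := ⟨_, rfl⟩
  have hx0 : 0 ≤ x := by rw [hx]; positivity
  have hx1 : x ≤ N ^ (-(δ / 5)) := by
    rw [hx, div_le_iff₀ (by positivity), Real.rpow_neg hN0.le, inv_mul_eq_div,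
      le_div_iff₀ (by positivity)]
    rw [hm]
    have := (Nat.lt_floor_add_one (k * N ^ (δ / 5))).le
    push_cast
    linarith
  obtain ⟨y, hy⟩ : ∃ y : ℝ, y = N ^ (-(7 * δ / 40)) := ⟨_, rfl⟩
  have hy0 : 0 < y := by rw [hy]; positivity
  have hy1 : y ≤ 1 := by
    rw [hy]
    exact Real.rpow_le_one_of_one_le_of_nonpos hN1 (by linarith)
  have hw : ∀ j : ℕ, j ≤ d → wgt x j ≤ y ^ j := by
    intro j hj
    rw [wgt_eq]
    refine pow_le_pow_left₀ (by positivity) ?_ j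
    have h2 : (2 : ℝ) ^ (j + 2) ≤ 2 ^ (d + 2) := pow_le_pow_right₀ (by norm_num) (by omega)
    calc (2 : ℝ) ^ (j + 2) * x ≤ N ^ (δ / 40) * N ^ (-(δ / 5)) :=
          mul_le_mul (h2.trans hpow) hx1 hx0 (by positivity)
      _ = y := by
          rw [← Real.rpow_add hN0, hy]
          congr 1
          ring
  have hsum1 : ∑ j ∈ Icc (c + 1) d, wgt x j ≤ d * y ^ (c + 1) := by
    calc ∑ j ∈ Icc (c + 1) d, wgt x j ≤ ∑ j ∈ Icc (c + 1) d, y ^ (c + 1) := by
          refine sum_le_sum fun j hj => ?_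
          rw [mem_Icc] at hj
          exact (hw j hj.2).trans (pow_le_pow_of_le_one hy0.le hy1 hj.1)
      _ = ((Icc (c + 1) d).card : ℝ) * y ^ (c + 1) := by rw [sum_const, nsmul_eq_mul]
      _ ≤ d * y ^ (c + 1) := by
          have : (Icc (c + 1) d).card ≤ d := by rw [Nat.card_Icc]; omega
          have h3 : ((Icc (c + 1) d).card : ℝ) ≤ d := by exact_mod_cast this
          gcongr
  have hsum2 : ∑ j ∈ Icc 1 c, wgt x j ≤ d := by
    calc ∑ j ∈ Icc 1 c, wgt x j ≤ ∑ j ∈ Icc 1 c, (1 : ℝ) := by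
          refine sum_le_sum fun j hj => ?_
          rw [mem_Icc] at hj
          refine (hw j (hj.2.trans hcd)).trans ?_
          exact pow_le_one₀ hy0.le hy1
      _ = ((Icc 1 c).card : ℝ) := by rw [sum_const, nsmul_eq_mul, mul_one]
      _ ≤ d := by
          have : (Icc 1 c).card ≤ d := by rw [Nat.card_Icc]; omega
          exact_mod_cast this
  have hsy : (s : ℝ) * y ^ c * N ≤ 1 := by
    have h2 : 0 < (s : ℝ) * y ^ c * N := by positivity
    rw [← Real.log_nonpos_iff h2.le, Real.log_mul (by positivity) hN0.ne',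
      Real.log_mul hs0.ne' (by positivity), Real.log_pow, hy, Real.log_rpow hN0, ← hL]
    have h3 : 2 * (Real.log s + L) ≤ c * (δ / 5 * L) := by
      rw [← div_le_iff₀ (by positivity)]
      linarith
    linear_combination (7 / 8) * h3 + (3 / 4) * hls0.le + (3 / 4) * hL0.le
  have hsy1 : (((s + 1 : ℕ) : ℝ)) * y ^ (c + 1) * N ≤ 2 := by
    have h2 : (((s + 1 : ℕ) : ℝ)) ≤ 2 * s := by
      have h3 : 1 ≤ s := by omega
      exact_mod_cast (by omega : s + 1 ≤ 2 * s)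
    calc (((s + 1 : ℕ) : ℝ)) * y ^ (c + 1) * N ≤ 2 * s * y ^ (c + 1) * N := by gcongr
      _ = 2 * (s * y ^ c * N) * y := by ring
      _ ≤ 2 * 1 * 1 := by gcongr
      _ = 2 := by ring
  have hqL : (q : ℝ) ≤ 4 * L ^ 3 := by
    rw [hq]
    push_cast
    have h2 : (d : ℝ) ^ 2 + 1 ≤ 2 * L ^ 2 := by
      have : (d : ℝ) ^ 2 ≤ L ^ 2 := by gcongr
      nlinarith
    have h3 : (d : ℝ) + 1 ≤ 2 * L := by linarith
    calc ((d : ℝ) ^ 2 + 1) * (d + 1) ≤ (2 * L ^ 2) * (2 * L) := by gcongr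
      _ = 4 * L ^ 3 := by ring
  -- the environment
  have hlog2 : (Nat.log 2 n : ℝ) ≤ 2 * L := by
    have h2 : (2 : ℝ) ^ Nat.log 2 n ≤ N := by
      rw [hN]
      exact_mod_cast Nat.pow_log_le_self 2 (by omega)
    have h3 := Real.log_le_log (by positivity) h2
    rw [Real.log_pow, ← hL] at h3
    have h4 := Real.log_two_gt_d9
    have h5 : (0 : ℝ) ≤ Nat.log 2 n := Nat.cast_nonneg _
    nlinarith
  have hBL : (B : ℝ) ≤ 20 * L ^ 4 * D := by
    rw [hB]
    push_cast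
    calc (q : ℝ) * (D + Nat.log 2 n + 2) ≤ 4 * L ^ 3 * (5 * L * D) := by
          have h2 : (D : ℝ) + Nat.log 2 n + 2 ≤ 5 * L * D := by
            have h3 : (2 * L + 2) * 1 ≤ (2 * L + 2) * D := by gcongr
            have h4 : (1 + 2) * (D : ℝ) ≤ (3 * L) * D := by
              have : (1 + 2 : ℝ) ≤ 3 * L := by linarith
              gcongr
            linarith
          gcongr
      _ = _ := by ring
  obtain ⟨P, hP⟩ : ∃ P : ℝ, P = N ^ (δ / 5) := ⟨_, rfl⟩
  have hP1 : 1 ≤ P := by rw [hP]; exact Real.one_le_rpow hN1 (by linarith)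
  have hP0 : 0 < P := by linarith
  have hmL : (m : ℝ) ≤ 2 * k * P := by
    have h2 : ((⌊k * P⌋₊ : ℕ) : ℝ) ≤ k * P := Nat.floor_le (by positivity)
    have h3 : (1 : ℝ) * 1 ≤ k * P := by gcongr
    rw [hm, ← hP]
    push_cast
    linarith
  have hm1 : 1 ≤ m := by omega
  have hm1' : (1 : ℝ) ≤ m := by exact_mod_cast hm1
  have hd1 : (1 : ℝ) ≤ d := by exact_mod_cast (by omega : 1 ≤ d)
  have hdm : (d : ℝ) * m ≤ 2 * L * K * P := by
    calc (d : ℝ) * m ≤ L * (2 * k * P) := by gcongr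
      _ ≤ L * (2 * K * P) := by gcongr
      _ = _ := by ring
  have hBdm : (B : ℝ) * (d * m) ≤ 40 * L ^ 5 * K * P := by
    calc (B : ℝ) * (d * m) ≤ 20 * L ^ 4 * D * (L * (2 * k * P)) := by gcongr
      _ = 40 * L ^ 5 * (k * D) * P := by ring
      _ = 40 * L ^ 5 * K * P := by rw [hK]
  have hIx : (Fintype.card (Ix B d m) : ℝ) = B * (d * m) := by
    simp only [Fintype.card_prod, Fintype.card_fin]
    push_cast
    ring
  have hRt : (Fintype.card (Rt B d m) : ℝ) = B * (d * m) + d * (m + 1) := by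
    have h2 : (Fintype.card (Rt B d m) : ℝ) = Fintype.card (Ix B d m) +
        Fintype.card (Fin d × Fin (m + 1)) := by
      rw [← Nat.cast_add]
      congr 1
      exact Fintype.card_sum
    rw [h2, hIx]
    simp only [Fintype.card_prod, Fintype.card_fin]
    push_cast
    ring
  have hB1 : (1 : ℝ) ≤ B := by
    have h2 : 1 ≤ B := by
      rw [hB, hq]
      exact Nat.one_le_iff_ne_zero.2 (Nat.mul_ne_zero (Nat.mul_ne_zero (by omega) (by omega))
        (by omega))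
    exact_mod_cast h2
  have hRt2 : (Fintype.card (Rt B d m) : ℝ) ≤ 120 * L ^ 5 * K * P := by
    rw [hRt]
    have h3 : (d : ℝ) * m ≤ B * (d * m) := by
      have : 1 * ((d : ℝ) * m) ≤ B * (d * m) := by gcongr
      linarith
    have h4 : (d : ℝ) ≤ d * m := by
      calc (d : ℝ) = d * 1 := (mul_one _).symm
        _ ≤ d * m := by gcongr
    calc (B : ℝ) * (d * m) + d * (m + 1) = B * (d * m) + d * m + d := by ring
      _ ≤ 3 * (B * (d * m)) := by linarith
      _ ≤ 3 * (40 * L ^ 5 * K * P) := by gcongr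
      _ = 120 * L ^ 5 * K * P := by ring
  have hPP : P * P = N ^ (2 * δ / 5) := by
    rw [hP, ← Real.rpow_add hN0]
    congr 1
    ring
  -- the power of the logarithm
  have hLP : 14400 * L ^ 10 ≤ N ^ (3 * δ / 5) := by
    have h2 : (1 : ℝ) ≤ L ^ 10 := one_le_pow₀ hL1
    have h3 : 1700 ≤ N ^ (δ / 12) := by linarith
    calc 14400 * L ^ 10 ≤ 1700 * (1700 * L ^ 10) := by linarith
      _ ≤ N ^ (δ / 12) * N ^ (δ / 12) := by gcongr
      _ = N ^ (δ / 12 + δ / 12) := (Real.rpow_add hN0 _ _).symm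
      _ ≤ N ^ (3 * δ / 5) := Real.rpow_le_rpow_of_exponent_le hN1 (by linarith)
  -- the error
  have herr : errR (s + 1) q c d (d * m + c) x (2 * (Fintype.card (Rt B d m) : ℝ) / N) ≤
      3848 * L ^ 10 * K ^ 2 * (P * P) / N := by
    unfold errR
    have h2 : (((s + 1 : ℕ) : ℝ)) * (q * ∑ j ∈ Icc (c + 1) d, wgt x j) ≤
        8 * L ^ 10 * K ^ 2 * (P * P) / N := by
      rw [le_div_iff₀ hN0]
      calc (((s + 1 : ℕ) : ℝ)) * (q * ∑ j ∈ Icc (c + 1) d, wgt x j) * N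
          ≤ ((s + 1 : ℕ) : ℝ) * (q * (d * y ^ (c + 1))) * N := by gcongr
        _ = q * d * (((s + 1 : ℕ) : ℝ) * y ^ (c + 1) * N) := by ring
        _ ≤ 4 * L ^ 3 * L * 2 := by gcongr
        _ = 8 * L ^ 4 * 1 * (1 * 1) := by ring
        _ ≤ 8 * L ^ 10 * K ^ 2 * (P * P) := by
            have h5 : L ^ 4 ≤ L ^ 10 := pow_le_pow_right₀ hL1 (by norm_num)
            have h6 : 1 ≤ K ^ 2 := one_le_pow₀ hK1
            gcongr
    have h3 : ((d * m + c : ℕ) : ℝ) * (2 * (Fintype.card (Rt B d m) : ℝ) / N) *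
        (q * ∑ j ∈ Icc 1 c, wgt x j) ≤ 3840 * L ^ 10 * K ^ 2 * (P * P) / N := by
      have h5 : ((d * m + c : ℕ) : ℝ) ≤ 4 * L * K * P := by
        push_cast
        have h6 : (c : ℝ) ≤ d := by exact_mod_cast hcd
        have h7 : (d : ℝ) * 1 ≤ d * m := by gcongr
        linarith
      have h6 : 0 ≤ ∑ j ∈ Icc 1 c, wgt x j := sum_nonneg fun j _ => by unfold wgt; positivity
      calc ((d * m + c : ℕ) : ℝ) * (2 * (Fintype.card (Rt B d m) : ℝ) / N) *
          (q * ∑ j ∈ Icc 1 c, wgt x j)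
          ≤ (4 * L * K * P) * (2 * (120 * L ^ 5 * K * P) / N) * (4 * L ^ 3 * L) := by
            have h7 : ∑ j ∈ Icc 1 c, wgt x j ≤ L := hsum2.trans hdL'
            gcongr
        _ = 3840 * L ^ 10 * K ^ 2 * (P * P) / N := by ring
    calc _ ≤ 8 * L ^ 10 * K ^ 2 * (P * P) / N + 3840 * L ^ 10 * K ^ 2 * (P * P) / N :=
          add_le_add h2 h3
      _ = _ := by ring
  have hthird : (Fintype.card (Ix B d m) : ℝ) * (2 * (Fintype.card (Rt B d m) : ℝ) / N) ≤
      9600 * L ^ 10 * K ^ 2 * (P * P) / N := by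
    calc (Fintype.card (Ix B d m) : ℝ) * (2 * (Fintype.card (Rt B d m) : ℝ) / N)
        ≤ (40 * L ^ 5 * K * P) * (2 * (120 * L ^ 5 * K * P) / N) := by
          rw [hIx]
          gcongr
      _ = _ := by ring
  refine ⟨c, m, q, B, d, hc3, hd, hm1, hq.symm.le, hB.symm.le, ?_, ?_⟩
  · have h2 : ((Fintype.card (Rt B d m) : ℝ)) ^ 2 ≤ N := by
      calc ((Fintype.card (Rt B d m) : ℝ)) ^ 2 ≤ (120 * L ^ 5 * K * P) ^ 2 := by
            gcongr
        _ = 14400 * L ^ 10 * K ^ 2 * (P * P) := by ring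
        _ ≤ N ^ (3 * δ / 5) * N ^ (1 - δ) * N ^ (2 * δ / 5) := by
            rw [hPP]
            gcongr
        _ = N := by
            rw [← Real.rpow_add hN0, ← Real.rpow_add hN0]
            nth_rw 2 [← Real.rpow_one N]
            congr 1
            ring
    rw [hN] at h2
    exact_mod_cast h2
  · rw [← hx]
    calc _ ≤ 3848 * L ^ 10 * K ^ 2 * (P * P) / N + 9600 * L ^ 10 * K ^ 2 * (P * P) / N :=
          add_le_add herr hthird
      _ = 13448 * L ^ 10 * K ^ 2 * (P * P) / N := by ring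
      _ ≤ 14400 * L ^ 10 * K ^ 2 * (P * P) / N := by gcongr; norm_num
      _ ≤ N ^ (3 * δ / 5) * K ^ 2 * N ^ (2 * δ / 5) / N := by
          rw [hPP]
          gcongr
      _ = K ^ 2 * N ^ (δ - 1) := by
          have h3 : N ^ (3 * δ / 5) * N ^ (2 * δ / 5) = N ^ (δ - 1) * N := by
            rw [← Real.rpow_add hN0]
            nth_rw 3 [← Real.rpow_one N]
            rw [← Real.rpow_add hN0]
            congr 1
            ring
          rw [div_eq_iff hN0.ne']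
          linear_combination K ^ 2 * h3

end Pool.Agent.T9h46.QC
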