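import Pool.Agent.T9h34.Q.Spec

/-!
# One random star is invisible
-/

set_option autoImplicit false

namespace Pool.Agent.T9h46.QC

open Finset
open Pool.Agent.PC34 (prob)
open Pool.Agent.T9h34.Q

section fib

variable {E : Type} [Fintype E] [DecidableEq E]

lemma card_union_eq (K H : Finset E) :
    (univ.filter (fun G : Finset E => G ∪ K = H)).card = if K ⊆ H then 2 ^ K.card else 0 := by
  split_ifs with h
  · have h1 : univ.filter (fun G : Finset E => G ∪ K = H) = Icc (H \ K) H := by
      ext G
      simp only [mem_filter, mem_univ, true_and, mem_Icc]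
      constructor
      · rintro rfl
        refine ⟨?_, subset_union_left⟩
        intro x hx
        rw [mem_sdiff, mem_union] at hx
        tauto
      · rintro ⟨h2, h3⟩
        refine subset_antisymm (union_subset h3 h) fun x hx => ?_
        rw [mem_union]
        by_cases hK : x ∈ K
        · exact .inr hK
        · exact .inl (h2 (mem_sdiff.2 ⟨hx, hK⟩))
    rw [h1, card_Icc_finset sdiff_subset]
    congr 1
    have := card_sdiff_add_card_eq_card h
    omega
  · rw [card_eq_zero, filter_eq_empty_iff]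
    rintro G - rfl
    exact h subset_union_right

lemma card_superset (K : Finset E) :
    ((univ.filter (fun G : Finset E => K ⊆ G)).card : ℝ) * 2 ^ K.card = 2 ^ Fintype.card E := by
  have h1 : univ.filter (fun G : Finset E => K ⊆ G) = Icc K univ := by
    ext G
    simp only [mem_filter, mem_univ, true_and, mem_Icc, subset_univ, and_true]
  rw [h1, card_Icc_finset (subset_univ _), card_univ]
  push_cast
  rw [← pow_add, Nat.sub_add_cancel (card_le_univ K)]

/-- the density -/
noncomputable def dens {P : Type} [Fintype P] (K : P → Finset E) (H : Finset E) : ℝ :=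
  ∑ p, if K p ⊆ H then (2 : ℝ) ^ (K p).card else 0

lemma sum_dens {P : Type} [Fintype P] (K : P → Finset E) (w : Finset E → ℝ) :
    ∑ x : Finset E × P, w (x.1 ∪ K x.2) = ∑ H, w H * dens K H := by
  rw [Fintype.sum_prod_type, sum_comm]
  have h1 : ∀ p, ∑ G : Finset E, w (G ∪ K p) =
      ∑ H, w H * (if K p ⊆ H then (2 : ℝ) ^ (K p).card else 0) := by
    intro p
    rw [← sum_fiberwise_of_maps_to (s := univ) (t := univ) (g := fun G : Finset E => G ∪ K p)
      (fun _ _ => mem_univ _) (fun G => w (G ∪ K p))]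
    refine sum_congr rfl fun H _ => ?_
    have h2 : ∑ G ∈ univ.filter (fun G : Finset E => G ∪ K p = H), w (G ∪ K p) =
        ∑ G ∈ univ.filter (fun G : Finset E => G ∪ K p = H), w H :=
      sum_congr rfl fun G hG => by rw [(mem_filter.1 hG).2]
    rw [h2, sum_const, card_union_eq, nsmul_eq_mul, mul_comm]
    split_ifs <;> simp
  rw [sum_congr rfl fun p _ => h1 p, sum_comm]
  refine sum_congr rfl fun H _ => ?_
  rw [dens, mul_sum]

lemma sum_dens_sq {P : Type} [Fintype P] (K : P → Finset E) :
    ∑ H, dens K H ^ 2 = 2 ^ Fintype.card E * ∑ p, ∑ p', (2 : ℝ) ^ (K p ∩ K p').card := by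
  have h1 : ∀ H, dens K H ^ 2 = ∑ p, ∑ p',
      if K p ∪ K p' ⊆ H then (2 : ℝ) ^ ((K p).card + (K p').card) else 0 := by
    intro H
    rw [sq, dens, sum_mul_sum]
    refine sum_congr rfl fun p _ => sum_congr rfl fun p' _ => ?_
    simp only [union_subset_iff, pow_add]
    by_cases h1 : K p ⊆ H <;> by_cases h2 : K p' ⊆ H <;> simp [h1, h2]
  rw [sum_congr rfl fun H _ => h1 H, sum_comm, mul_sum]
  refine sum_congr rfl fun p _ => ?_
  rw [sum_comm, mul_sum]
  refine sum_congr rfl fun p' _ => ?_
  rw [← sum_filter, sum_const, nsmul_eq_mul]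
  have h2 := card_superset (K p ∪ K p')
  have h3 := card_union_add_card_inter (K p) (K p')
  rw [← h3, pow_add, ← mul_assoc, h2]

end fib

section inter

variable {V ρ : Type} [Fintype V] [DecidableEq V] [Fintype ρ] [DecidableEq ρ]

/-- the leaves -/
def lv (q : ρ → V) : Finset V := univ.image q

omit [Fintype V] [DecidableEq ρ] in
lemma star_inter_le (p p' : Option ρ → V) :
    (2 : ℝ) ^ (star p ∩ star p').card ≤ 1 +
      (if p none = p' none then
        (∏ r, (1 + if p (some r) ∈ lv (fun r => p' (some r)) then (1 : ℝ) else 0)) - 1 else 0) +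
      (if p' none ∈ lv (fun r => p (some r)) then (1 : ℝ) else 0) *
        (if p none ∈ lv (fun r => p' (some r)) then (1 : ℝ) else 0) := by
  have hm : ∀ e, e ∈ star p ∩ star p' → (∃ r, s(p none, p (some r)) = e) ∧
      ∃ r, s(p' none, p' (some r)) = e := by
    intro e he
    rw [mem_inter] at he
    unfold Pool.Agent.T9h34.Q.star at he
    simp only [mem_image, mem_univ, true_and] at he
    exact he
  by_cases h : p none = p' none
  · rw [if_pos h]
    have h1 : (∏ r, (1 + if p (some r) ∈ lv (fun r => p' (some r)) then (1 : ℝ) else 0)) =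
        2 ^ (univ.filter (fun r => p (some r) ∈ lv (fun r => p' (some r)))).card := by
      rw [← prod_const, prod_filter]
      refine prod_congr rfl fun r _ => ?_
      split_ifs <;> norm_num
    have h2 : (star p ∩ star p').card ≤
        (univ.filter (fun r => p (some r) ∈ lv (fun r => p' (some r)))).card := by
      have h3 : star p ∩ star p' ⊆ (univ.filter (fun r => p (some r) ∈
          lv (fun r => p' (some r)))).image (fun r => s(p none, p (some r))) := by
        intro e he
        obtain ⟨⟨r, hr⟩, ⟨r', hr'⟩⟩ := hm e he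
        rw [mem_image]
        refine ⟨r, ?_, hr⟩
        rw [mem_filter]
        refine ⟨mem_univ _, ?_⟩
        rw [← hr, ← h] at hr'
        rw [Sym2.congr_right.1 hr'.symm]
        exact mem_image.2 ⟨r', mem_univ _, rfl⟩
      exact (card_le_card h3).trans card_image_le
    have h3 : (2 : ℝ) ^ (star p ∩ star p').card ≤
        2 ^ (univ.filter (fun r => p (some r) ∈ lv (fun r => p' (some r)))).card :=
      pow_le_pow_right₀ (by norm_num) h2
    rw [h1]
    have h4 : (0 : ℝ) ≤ (if p' none ∈ lv (fun r => p (some r)) then (1 : ℝ) else 0) *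
        (if p none ∈ lv (fun r => p' (some r)) then (1 : ℝ) else 0) := by
      split_ifs <;> norm_num
    linarith
  · rw [if_neg h, add_zero]
    have h5 : ∀ e, e ∈ star p ∩ star p' → e = s(p none, p' none) ∧
        p' none ∈ lv (fun r => p (some r)) ∧ p none ∈ lv (fun r => p' (some r)) := by
      intro e he
      obtain ⟨⟨r, hr⟩, ⟨r', hr'⟩⟩ := hm e he
      have h6 : s(p none, p (some r)) = s(p' none, p' (some r')) := hr.trans hr'.symm
      rw [Sym2.eq_iff] at h6
      rcases h6 with h6 | h6
      · exact absurd h6.1 h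
      · refine ⟨?_, ?_, ?_⟩
        · rw [← hr, h6.2]
        · exact mem_image.2 ⟨r, mem_univ _, h6.2⟩
        · exact mem_image.2 ⟨r', mem_univ _, h6.1.symm⟩
    by_cases hb : p' none ∈ lv (fun r => p (some r)) ∧ p none ∈ lv (fun r => p' (some r))
    · rw [if_pos hb.1, if_pos hb.2]
      have h6 : (star p ∩ star p').card ≤ 1 := by
        rw [card_le_one]
        intro a ha b hb
        rw [(h5 a ha).1, (h5 b hb).1]
      have h7 : (2 : ℝ) ^ (star p ∩ star p').card ≤ 2 ^ 1 :=
        pow_le_pow_right₀ (by norm_num) h6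
      linarith
    · have h6 : star p ∩ star p' = ∅ := by
        rw [eq_empty_iff_forall_notMem]
        intro e he
        exact hb (h5 e he).2
      rw [h6, card_empty, pow_zero]
      have h4 : (0 : ℝ) ≤ (if p' none ∈ lv (fun r => p (some r)) then (1 : ℝ) else 0) *
          (if p none ∈ lv (fun r => p' (some r)) then (1 : ℝ) else 0) := by
        split_ifs <;> norm_num
      linarith

omit [DecidableEq V] in
lemma sum_option {M : Type} [AddCommMonoid M] (g : V → (ρ → V) → M) :
    ∑ p : Option ρ → V, g (p none) (fun r => p (some r)) = ∑ y, ∑ q, g y q := by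
  rw [← Fintype.sum_prod_type']
  refine Fintype.sum_equiv (Equiv.piOptionEquivProd (β := fun _ => V)) _ _ fun p => rfl

omit [Fintype V] [DecidableEq ρ] in
lemma card_lv_le (q : ρ → V) : (lv q).card ≤ Fintype.card ρ :=
  card_image_le.trans (by rw [card_univ])

/-- the sum over pairs of stars -/
lemma sum_inter_le (hV : 0 < Fintype.card V) (hR : (Fintype.card ρ) ^ 2 ≤ Fintype.card V) :
    ∑ p : Option ρ → V, ∑ p' : Option ρ → V, (2 : ℝ) ^ (star p ∩ star p').card ≤
      ((Fintype.card V : ℝ) ^ (Fintype.card ρ + 1)) ^ 2 *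
        (1 + 3 * (Fintype.card ρ : ℝ) ^ 2 / (Fintype.card V : ℝ) ^ 2) := by
  have hn : (0 : ℝ) < Fintype.card V := by exact_mod_cast hV
  set n : ℝ := ((Fintype.card V : ℕ) : ℝ) with hn'
  set R : ℕ := Fintype.card ρ with hR'
  have hR2 : (R : ℝ) ^ 2 ≤ n := by rw [hn']; exact_mod_cast hR
  have e1 : ∑ p : Option ρ → V, ∑ p' : Option ρ → V, (1 : ℝ) = (n ^ (R + 1)) ^ 2 := by
    simp only [sum_const, card_univ, nsmul_eq_mul, mul_one, Fintype.card_fun, Fintype.card_option]
    push_cast
    ring
  -- the second sum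
  have e2 : ∑ p : Option ρ → V, ∑ p' : Option ρ → V, (if p none = p' none then
        (∏ r, (1 + if p (some r) ∈ lv (fun r => p' (some r)) then (1 : ℝ) else 0)) - 1 else 0) ≤
      n * (n ^ R * ((n + R) ^ R - n ^ R)) := by
    have h1 : ∀ p' : Option ρ → V, ∑ p : Option ρ → V, (if p none = p' none then
        (∏ r, (1 + if p (some r) ∈ lv (fun r => p' (some r)) then (1 : ℝ) else 0)) - 1 else 0) ≤
        (n + R) ^ R - n ^ R := by
      intro p'
      rw [sum_option (fun y (q : ρ → V) => if y = p' none then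
        (∏ r, (1 + if q r ∈ lv (fun r => p' (some r)) then (1 : ℝ) else 0)) - 1 else 0)]
      rw [sum_comm]
      simp only [sum_ite_eq', mem_univ, if_true]
      rw [sum_sub_distrib, sum_const, card_univ, Fintype.card_fun, nsmul_eq_mul, mul_one]
      have h2 : ∑ q : ρ → V, ∏ r, (1 + if q r ∈ lv (fun r => p' (some r)) then (1 : ℝ) else 0) =
          (n + (lv (fun r => p' (some r))).card) ^ R := by
        have h3 := Finset.prod_univ_sum (fun _ : ρ => (univ : Finset V))
          (fun _ v => (1 + if v ∈ lv (fun r => p' (some r)) then (1 : ℝ) else 0))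
        rw [Fintype.piFinset_univ] at h3
        rw [← h3, prod_const, card_univ, sum_add_distrib, sum_const, card_univ, nsmul_eq_mul,
          mul_one, sum_ite_mem, univ_inter, sum_const, nsmul_eq_mul, mul_one]
      rw [h2]
      have h4 : ((lv (fun r => p' (some r))).card : ℝ) ≤ R := by
        exact_mod_cast card_lv_le _
      push_cast
      have h5 : (n + (lv (fun r => p' (some r))).card) ^ R ≤ (n + R) ^ R := by gcongr
      linarith
    rw [sum_comm]
    refine (sum_le_sum fun p' _ => h1 p').trans ?_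
    rw [sum_const, card_univ, Fintype.card_fun, Fintype.card_option, nsmul_eq_mul]
    push_cast
    rw [← hn', ← hR']
    apply le_of_eq
    ring
  -- the third sum
  have e3 : ∑ p : Option ρ → V, ∑ p' : Option ρ → V,
      (if p' none ∈ lv (fun r => p (some r)) then (1 : ℝ) else 0) *
        (if p none ∈ lv (fun r => p' (some r)) then (1 : ℝ) else 0) ≤ (n ^ R) ^ 2 * R ^ 2 := by
    have h1 : ∑ p : Option ρ → V, ∑ p' : Option ρ → V,
        (if p' none ∈ lv (fun r => p (some r)) then (1 : ℝ) else 0) *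
        (if p none ∈ lv (fun r => p' (some r)) then (1 : ℝ) else 0) =
        ∑ q : ρ → V, ∑ q' : ρ → V, ((lv q).card : ℝ) * (lv q').card := by
      have h2 : ∀ p : Option ρ → V, ∑ p' : Option ρ → V,
        (if p' none ∈ lv (fun r => p (some r)) then (1 : ℝ) else 0) *
        (if p none ∈ lv (fun r => p' (some r)) then (1 : ℝ) else 0) =
          ∑ y' : V, ∑ q' : ρ → V, (if y' ∈ lv (fun r => p (some r)) then (1 : ℝ) else 0) *
        (if p none ∈ lv q' then (1 : ℝ) else 0) := fun p =>
        sum_option (fun y' (q' : ρ → V) =>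
          (if y' ∈ lv (fun r => p (some r)) then (1 : ℝ) else 0) *
          (if p none ∈ lv q' then (1 : ℝ) else 0))
      rw [sum_congr rfl fun p _ => h2 p]
      rw [sum_option (fun y (q : ρ → V) => ∑ y' : V, ∑ q' : ρ → V,
        (if y' ∈ lv q then (1 : ℝ) else 0) * (if y ∈ lv q' then (1 : ℝ) else 0))]
      rw [sum_comm]
      refine sum_congr rfl fun q _ => ?_
      have h3 : ∀ y : V, ∑ y' : V, ∑ q' : ρ → V,
          (if y' ∈ lv q then (1 : ℝ) else 0) * (if y ∈ lv q' then (1 : ℝ) else 0) =
          ((lv q).card : ℝ) * ∑ q' : ρ → V, (if y ∈ lv q' then (1 : ℝ) else 0) := by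
        intro y
        rw [← sum_mul_sum, sum_ite_mem, univ_inter, sum_const, nsmul_eq_mul, mul_one]
      rw [sum_congr rfl fun y _ => h3 y, ← mul_sum, sum_comm, mul_sum]
      refine sum_congr rfl fun q' _ => ?_
      rw [sum_ite_mem, univ_inter, sum_const, nsmul_eq_mul, mul_one]
    rw [h1]
    have h2 : ∀ q q' : ρ → V, ((lv q).card : ℝ) * (lv q').card ≤ (R : ℝ) ^ 2 := by
      intro q q'
      have h3 : ((lv q).card : ℝ) ≤ R := by exact_mod_cast card_lv_le _
      have h4 : ((lv q').card : ℝ) ≤ R := by exact_mod_cast card_lv_le _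
      rw [sq]
      exact mul_le_mul h3 h4 (by positivity) (by positivity)
    refine (sum_le_sum fun q _ => sum_le_sum fun q' _ => h2 q q').trans ?_
    simp only [sum_const, card_univ, nsmul_eq_mul, Fintype.card_fun]
    push_cast
    rw [← hn', ← hR']
    apply le_of_eq
    ring
  have h0 : ∑ p : Option ρ → V, ∑ p' : Option ρ → V, (2 : ℝ) ^ (star p ∩ star p').card ≤
      (n ^ (R + 1)) ^ 2 + n * (n ^ R * ((n + R) ^ R - n ^ R)) + (n ^ R) ^ 2 * R ^ 2 := by
    refine (sum_le_sum fun p _ => sum_le_sum fun p' _ => star_inter_le p p').trans ?_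
    simp only [sum_add_distrib]
    rw [e1]
    linarith
  refine h0.trans ?_
  have h1 : (n + R) ^ R ≤ n ^ R * (1 + 2 * (R ^ 2 / n)) := by
    have h2 : (n + R : ℝ) = n * (1 + R / n) := by field_simp
    rw [h2, mul_pow]
    refine mul_le_mul_of_nonneg_left ?_ (by positivity)
    have h3 : (1 + R / n : ℝ) ^ R ≤ Real.exp (R ^ 2 / n) := by
      have h4 : (1 + R / n : ℝ) ≤ Real.exp (R / n) := by
        rw [add_comm]; exact Real.add_one_le_exp _
      calc (1 + R / n : ℝ) ^ R ≤ Real.exp (R / n) ^ R := by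
            gcongr
        _ = Real.exp (R ^ 2 / n) := by
            rw [← Real.exp_nat_mul]; congr 1; ring
    have h5 : (R : ℝ) ^ 2 / n ≤ 1 := by rw [div_le_one hn]; exact hR2
    have h6 : (0 : ℝ) ≤ (R : ℝ) ^ 2 / n := by positivity
    have h7 := Real.abs_exp_sub_one_le (x := (R : ℝ) ^ 2 / n) (by rw [abs_of_nonneg h6]; exact h5)
    rw [abs_of_nonneg h6] at h7
    have h8 := le_abs_self (Real.exp ((R : ℝ) ^ 2 / n) - 1)
    linarith
  have h2 : n * (n ^ R * ((n + R) ^ R - n ^ R)) ≤ n * (n ^ R * (n ^ R * (2 * (R ^ 2 / n)))) := by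
    have : (n + R) ^ R - n ^ R ≤ n ^ R * (2 * (R ^ 2 / n)) := by linarith
    gcongr
  have h3 : n * (n ^ R * (n ^ R * (2 * (R ^ 2 / n)))) = (n ^ R) ^ 2 * (2 * R ^ 2) := by
    field_simp
  have h4 : (n ^ (R + 1)) ^ 2 * (1 + 3 * (R : ℝ) ^ 2 / n ^ 2) =
      (n ^ (R + 1)) ^ 2 + (n ^ R) ^ 2 * (3 * R ^ 2) := by
    field_simp
    ring
  rw [h4]
  linarith

end inter

theorem stStar : StStar := by
  intro V ρ _ _ _ _ _ hR Θ
  classical
  have hV : 0 < Fintype.card V := Fintype.card_pos
  have hn : (0 : ℝ) < Fintype.card V := by exact_mod_cast hV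
  have hsum := sum_inter_le (V := V) (ρ := ρ) hV hR
  set n : ℝ := ((Fintype.card V : ℕ) : ℝ) with hn'
  set R : ℕ := Fintype.card ρ with hR'
  set N : ℝ := 2 ^ Fintype.card (Sym2 V) with hN
  have hN0 : 0 < N := by positivity
  set P : ℝ := n ^ (R + 1) with hP
  have hP0 : 0 < P := by positivity
  have cN : (Fintype.card (Finset (Sym2 V)) : ℝ) = N := by
    rw [Fintype.card_finset]; push_cast; rfl
  have cP : (Fintype.card (Option ρ → V) : ℝ) = P := by
    rw [Fintype.card_fun, Fintype.card_option]; push_cast; rfl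
  set w : Finset (Sym2 V) → ℝ := fun H => if Θ H then 1 else 0 with hw
  set F : Finset (Sym2 V) → ℝ := dens (star (V := V) (ρ := ρ)) with hF
  have p1 : prob (fun x : Finset (Sym2 V) × (Option ρ → V) => Θ (x.1 ∪ star x.2)) =
      (∑ H, w H * F H) / (N * P) := by
    unfold prob
    rw [Fintype.card_prod]
    push_cast
    rw [cN, cP, ← sum_dens (star (V := V) (ρ := ρ)) w]
    congr 1
    rw [hw]
    simp only [sum_boole]
  have p2 : prob Θ = (∑ H, w H) / N := by
    unfold prob
    rw [cN, hw]
    simp only [sum_boole]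
  have s1 : ∑ H, F H = N * P := by
    have := sum_dens (star (V := V) (ρ := ρ)) (fun _ => (1 : ℝ))
    simp only [one_mul, sum_const, card_univ, nsmul_eq_mul, mul_one, Fintype.card_prod] at this
    push_cast at this
    rw [cN, cP] at this
    rw [hF]; exact this.symm
  have s2 : ∑ H, F H ^ 2 ≤ N * (P ^ 2 * (1 + 3 * (R : ℝ) ^ 2 / n ^ 2)) := by
    rw [hF, sum_dens_sq]
    exact mul_le_mul_of_nonneg_left hsum hN0.le
  have s3 : ∑ H, (F H - P) ^ 2 ≤ N * (P ^ 2 * (3 * (R : ℝ) ^ 2 / n ^ 2)) := by
    have : ∑ H, (F H - P) ^ 2 = ∑ H, F H ^ 2 - 2 * P * ∑ H, F H + N * P ^ 2 := by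
      rw [mul_sum, ← sum_sub_distrib]
      have h1 : N * P ^ 2 = ∑ H : Finset (Sym2 V), P ^ 2 := by
        rw [sum_const, card_univ, nsmul_eq_mul, cN]
      rw [h1, ← sum_add_distrib]
      exact sum_congr rfl fun H _ => by ring
    rw [this, s1]
    nlinarith [s2]
  have s4 : (∑ H, w H * (F H - P)) ^ 2 ≤ N * (N * (P ^ 2 * (3 * (R : ℝ) ^ 2 / n ^ 2))) := by
    refine (sum_mul_sq_le_sq_mul_sq univ w (fun H => F H - P)).trans ?_
    have h1 : ∑ H, w H ^ 2 ≤ N := by
      calc ∑ H, w H ^ 2 ≤ ∑ H : Finset (Sym2 V), (1 : ℝ) := sum_le_sum fun H _ => by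
            rw [hw]; dsimp only; split_ifs <;> norm_num
        _ = N := by rw [sum_const, card_univ, nsmul_eq_mul, cN, mul_one]
    exact mul_le_mul h1 s3 (sum_nonneg fun _ _ => sq_nonneg _) hN0.le
  have s5 : ∑ H, w H * (F H - P) ≤ N * P * (2 * R / n) := by
    refine le_of_sq_le_sq ?_ (by positivity)
    refine s4.trans ?_
    have h1 : (N * P * (2 * R / n)) ^ 2 = N * (N * (P ^ 2 * (4 * (R : ℝ) ^ 2 / n ^ 2))) := by
      ring
    rw [h1]
    gcongr
    norm_num
  have s6 : ∑ H, w H * F H ≤ P * ∑ H, w H + N * P * (2 * R / n) := by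
    have : ∑ H, w H * (F H - P) = ∑ H, w H * F H - P * ∑ H, w H := by
      rw [mul_sum, ← sum_sub_distrib]
      exact sum_congr rfl fun H _ => by ring
    linarith
  rw [p1, p2, div_le_iff₀ (by positivity)]
  refine s6.trans (le_of_eq ?_)
  field_simp

end Pool.Agent.T9h46.QC
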